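import Pool.Agent.K4H80.OK.Three

set_option autoImplicit false

/-!
Every arc exactly twice; cycle double covers at least half of whose edges are traversed in both
directions.
-/

namespace Pool.Agent.K4H80.OK

open Finset Pool.Agent.TH505.OCDC
open Pool.Agent.H126R2.CDC (T3)

variable {V : Type}

theorem sum_two {M : Type} [AddCommMonoid M] (F : T3 → M) {a b : T3} (hab : a ≠ b)
    (h : ∀ c, c ≠ a → c ≠ b → F c = 0) : ∑ c, F c = F a + F b :=
  Fintype.sum_eq_add a b hab (fun c hc => h c hc.1 hc.2)

theorem ne_of_pm {x : ℤ} (h : x = 1 ∨ x = -1) : x ≠ 0 := by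
  rcases h with h | h <;> rw [h] <;> norm_num

theorem ind_pm {x y : ℤ} (hx : x = 1 ∨ x = -1) (hxy : x + y = 0) :
    ind (x = 1) + ind (y = 1) = 1 := by
  have hy : y = -x := by omega
  subst hy
  rcases hx with h | h <;> rw [h]
  · rw [ind_pos rfl, ind_neg (by norm_num)]
  · rw [ind_neg (by norm_num), ind_pos (by norm_num)]

theorem ind_both {x : ℤ} (hx : x = 0 ∨ x = 1 ∨ x = -1) :
    ind (x = 1) + ind (-x = 1) = ind (x ≠ 0) := by
  rcases hx with h | h | h <;> rw [h]
  · rw [ind_neg (by norm_num), ind_neg (by norm_num), ind_neg (by norm_num)]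
  · rw [ind_pos rfl, ind_neg (by norm_num), ind_pos (by norm_num)]
  · rw [ind_neg (by norm_num), ind_pos (by norm_num), ind_pos (by norm_num)]

theorem pm_mul {x y : ℤ} (hx : x = 1 ∨ x = -1) (hy : y = 1 ∨ y = -1) :
    x * y = 1 ∨ x * y = -1 := by
  rcases hx with h | h <;> rcases hy with h' | h' <;> rw [h, h'] <;> norm_num

/-- the eight flows of the starting library -/
structure Eight [Fintype V] (G : SimpleGraph V) where
  g : T3 → V → V → ℤ
  anti : ∀ c u v, g c v u = - g c u v
  cons : ∀ c u, ∑ w, g c u w = 0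
  supp : ∀ c u v, ¬ G.Adj u v → g c u v = 0
  two : ∀ u v, G.Adj u v → ∃ a b : T3, a ≠ b ∧ (g a u v = 1 ∨ g a u v = -1) ∧
        (g b u v = 1 ∨ g b u v = -1) ∧ ∀ c, c ≠ a → c ≠ b → g c u v = 0

theorem exists_eight [Fintype V] (G : SimpleGraph V) (hG : NoCut G) : Nonempty (Eight G) := by
  obtain ⟨g, g1, g2, g3, g4⟩ := exists_flows G hG
  exact ⟨⟨g, g1, g2, g3, g4⟩⟩

theorem Eight.val [Fintype V] {G : SimpleGraph V} (K : Eight G) (c : T3) (u v : V) :
    K.g c u v = 0 ∨ K.g c u v = 1 ∨ K.g c u v = -1 := by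
  by_cases h : G.Adj u v
  · obtain ⟨a, b, _, ha, hb, h0⟩ := K.two u v h
    by_cases hca : c = a
    · rw [hca]; exact Or.inr ha
    · by_cases hcb : c = b
      · rw [hcb]; exact Or.inr hb
      · exact Or.inl (h0 c hca hcb)
  · exact Or.inl (K.supp c u v h)

/-- every arc exactly twice -/
theorem kfold_two [Fintype V] (G : SimpleGraph V) (hG : NoCut G) : KFold G 2 := by
  classical
  obtain ⟨K⟩ := exists_eight G hG
  obtain ⟨C, hC1, hC2⟩ := flows_decomp (G := G) (univ : Finset (T3 × Bool)).toList
    (fun i u v => if i.2 then K.g i.1 u v else - K.g i.1 u v)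
    (by
      intro i u v
      rw [K.anti i.1 u v]
      split_ifs <;> ring)
    (by
      intro i u v
      have := K.val i.1 u v
      split_ifs
      · exact this
      · rcases this with h | h | h <;> rw [h] <;> norm_num)
    (by
      intro i u v h
      by_contra hn
      apply h
      rw [K.supp i.1 u v hn]
      split_ifs <;> norm_num)
    (by
      intro i u
      split_ifs
      · exact K.cons i.1 u
      · rw [sum_neg_distrib, K.cons i.1 u, neg_zero])
  refine ⟨C, hC1, fun u v huv => ?_⟩
  rw [hC2, Finset.sum_map_toList, Fintype.sum_prod_type]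
  have h1 : ∀ c : T3, ∑ b : Bool, ind ((if b then K.g c u v else - K.g c u v) = 1) =
      ind (K.g c u v ≠ 0) := by
    intro c
    rw [Fintype.sum_bool]
    simp only [if_true, Bool.false_eq_true, if_false]
    exact ind_both (K.val c u v)
  rw [sum_congr rfl (fun c _ => h1 c)]
  obtain ⟨a, b, hab, ha, hb, h0⟩ := K.two u v huv
  rw [sum_two _ hab (fun c hca hcb => ind_neg (not_not.2 (h0 c hca hcb))), ind_pos (ne_of_pm ha),
    ind_pos (ne_of_pm hb)]

/-- all multiplicities at least two -/
theorem kfold_all [Fintype V] (G : SimpleGraph V) (hG : NoCut G) :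
    ∀ k, 2 ≤ k → KFold G k := by
  intro k
  induction k using Nat.strong_induction_on with
  | _ k ih =>
    intro hk
    by_cases h2 : k = 2
    · rw [h2]; exact kfold_two G hG
    · by_cases h3 : k = 3
      · rw [h3]; exact kfold_three G hG
      · have h4 : k = (k - 2) + 2 := by omega
        rw [h4]
        exact (ih (k - 2) (by omega) (by omega)).add (kfold_two G hG)

/-- the scalar product -/
def dt (s c : T3) : Bool := xor (s.1 && c.1) (xor (s.2.1 && c.2.1) (s.2.2 && c.2.2))

/-- the character -/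
def ch (s c : T3) : ℤ := if dt s c then -1 else 1

theorem ch_pm (s c : T3) : ch s c = 1 ∨ ch s c = -1 := by
  unfold ch
  split_ifs
  · exact Or.inr rfl
  · exact Or.inl rfl

theorem ch_count : ∀ a b : T3, a ≠ b → (univ.filter (fun s => dt s a = dt s b)).card = 4 := by
  decide

theorem ch_count' : ∀ a b : T3, a ≠ b → (univ.filter (fun s => dt s a ≠ dt s b)).card = 4 := by
  decide

theorem ch_add_eq (s a b : T3) : ch s a + ch s b ≠ 0 ↔ dt s a = dt s b := by
  unfold ch
  cases dt s a <;> cases dt s b <;> norm_num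

theorem ch_sub_eq (s a b : T3) : - ch s a + ch s b ≠ 0 ↔ dt s a ≠ dt s b := by
  unfold ch
  cases dt s a <;> cases dt s b <;> norm_num

/-- for exactly four of the eight characters the signed sum does not vanish -/
theorem ch_four {a b : T3} (hab : a ≠ b) {x y : ℤ} (hx : x = 1 ∨ x = -1) (hy : y = 1 ∨ y = -1) :
    ∑ s, ind (ch s a * x + ch s b * y ≠ 0) = 4 := by
  classical
  have h1 : (∀ s, (ch s a * x + ch s b * y ≠ 0 ↔ dt s a = dt s b)) ∨
      ∀ s, (ch s a * x + ch s b * y ≠ 0 ↔ dt s a ≠ dt s b) := by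
    rcases hx with rfl | rfl <;> rcases hy with rfl | rfl
    · left; intro s; rw [← ch_add_eq]; constructor <;> intro h h' <;> apply h <;> linarith
    · right; intro s; rw [← ch_sub_eq]; constructor <;> intro h h' <;> apply h <;> linarith
    · right; intro s; rw [← ch_sub_eq]; constructor <;> intro h h' <;> apply h <;> linarith
    · left; intro s; rw [← ch_add_eq]; constructor <;> intro h h' <;> apply h <;> linarith
  rcases h1 with h1 | h1
  · rw [← ch_count a b hab, card_eq_sum_ones, sum_filter]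
    refine sum_congr rfl (fun s _ => ?_)
    by_cases h4 : dt s a = dt s b
    · rw [ind_pos ((h1 s).2 h4), if_pos h4]
    · rw [ind_neg (fun h => h4 ((h1 s).1 h)), if_neg h4]
  · rw [← ch_count' a b hab, card_eq_sum_ones, sum_filter]
    refine sum_congr rfl (fun s _ => ?_)
    by_cases h4 : dt s a ≠ dt s b
    · rw [ind_pos ((h1 s).2 h4), if_pos h4]
    · rw [ind_neg (fun h => h4 ((h1 s).1 h)), if_neg h4]

/-- the signed sum of the flows -/
def Eight.sg [Fintype V] {G : SimpleGraph V} (K : Eight G) (s : T3) (u v : V) : ℤ :=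
  ∑ c, ch s c * K.g c u v

theorem Eight.sg_two [Fintype V] {G : SimpleGraph V} (K : Eight G) (s : T3) {u v : V} {a b : T3}
    (hab : a ≠ b) (h0 : ∀ c, c ≠ a → c ≠ b → K.g c u v = 0) :
    K.sg s u v = ch s a * K.g a u v + ch s b * K.g b u v :=
  sum_two _ hab (fun c hca hcb => by rw [h0 c hca hcb, mul_zero])

theorem Eight.sg_anti [Fintype V] {G : SimpleGraph V} (K : Eight G) (s : T3) (u v : V) :
    K.sg s v u = - K.sg s u v := by
  unfold Eight.sg
  rw [← sum_neg_distrib]
  exact sum_congr rfl (fun c _ => by rw [K.anti c u v]; ring)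

theorem Eight.sg_cons [Fintype V] {G : SimpleGraph V} (K : Eight G) (s : T3) (u : V) :
    ∑ w, K.sg s u w = 0 := by
  unfold Eight.sg
  rw [sum_comm]
  exact sum_eq_zero (fun c _ => by rw [← mul_sum, K.cons c u, mul_zero])

theorem Eight.sg_val [Fintype V] {G : SimpleGraph V} (K : Eight G) (s : T3) (u v : V) :
    K.sg s u v = 0 ∨ K.sg s u v = 2 ∨ K.sg s u v = -2 := by
  by_cases huv : G.Adj u v
  · obtain ⟨a, b, hab, ha, hb, h0⟩ := K.two u v huv
    rw [K.sg_two s hab h0]
    rcases pm_mul (ch_pm s a) ha with h | h <;> rcases pm_mul (ch_pm s b) hb with h' | h' <;>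
      rw [h, h'] <;> norm_num
  · left
    exact sum_eq_zero (fun c _ => by rw [K.supp c u v huv, mul_zero])

/-- The edges of `G` on which the signed sum of the eight flows does not vanish. -/
def Eight.bad [Fintype V] {G : SimpleGraph V} (K : Eight G) (s : T3) : SimpleGraph V where
  Adj u v := G.Adj u v ∧ K.sg s u v ≠ 0
  symm := ⟨fun u v h => ⟨h.1.symm, by rw [K.sg_anti]; exact neg_ne_zero.2 h.2⟩⟩
  loopless := ⟨fun u h => G.loopless.irrefl u h.1⟩

theorem sum_ind_deg [Fintype V] (D : SimpleGraph V) :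
    ∑ u, ∑ v, ind (D.Adj u v) = 2 * D.edgeSet.ncard := by
  classical
  have h1 := D.sum_degrees_eq_twice_card_edges
  rw [← SimpleGraph.coe_edgeFinset, Set.ncard_coe_finset, ← h1]
  refine sum_congr rfl (fun u _ => ?_)
  rw [← SimpleGraph.card_neighborFinset_eq_degree, card_eq_sum_ones, ← sum_subset
    (subset_univ (D.neighborFinset u))]
  · refine sum_congr rfl (fun v hv => ?_)
    rw [SimpleGraph.mem_neighborFinset] at hv
    exact ind_pos hv
  · intro v _ hv
    rw [SimpleGraph.mem_neighborFinset] at hv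
    exact ind_neg hv

theorem sum_ind_ncard [Fintype V] (D : SimpleGraph V) (v : V) :
    (D.neighborSet v).ncard = ∑ w, ind (D.Adj v w) := by
  classical
  rw [Set.ncard_eq_toFinset_card', card_eq_sum_ones, ← sum_subset
    (subset_univ (D.neighborSet v).toFinset)]
  · refine sum_congr rfl (fun w hw => ?_)
    rw [Set.mem_toFinset, SimpleGraph.mem_neighborSet] at hw
    rw [ind_pos hw]
  · intro w _ hw
    rw [Set.mem_toFinset, SimpleGraph.mem_neighborSet] at hw
    exact ind_neg hw

theorem Eight.exists_sign [Fintype V] {G : SimpleGraph V} (K : Eight G) :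
    ∃ s, 2 * (K.bad s).edgeSet.ncard ≤ G.edgeSet.ncard := by
  classical
  by_contra hcon
  push Not at hcon
  have h1 : ∑ s, ∑ u, ∑ v, ind ((K.bad s).Adj u v) = 4 * ∑ u, ∑ v, ind (G.Adj u v) := by
    rw [sum_comm, mul_sum]
    refine sum_congr rfl (fun u _ => ?_)
    rw [sum_comm, mul_sum]
    refine sum_congr rfl (fun v _ => ?_)
    by_cases huv : G.Adj u v
    · obtain ⟨a, b, hab, ha, hb, h0⟩ := K.two u v huv
      rw [ind_pos huv, mul_one, ← ch_four hab ha hb]
      refine sum_congr rfl (fun s _ => ?_)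
      apply ind_congr
      rw [← K.sg_two s hab h0]
      exact ⟨fun h => h.2, fun h => ⟨huv, h⟩⟩
    · rw [ind_neg huv, mul_zero]
      exact sum_eq_zero (fun s _ => ind_neg (fun h => huv h.1))
  rw [sum_ind_deg G, sum_congr rfl (fun s _ => sum_ind_deg _)] at h1
  have h2 : ∑ _s : T3, G.edgeSet.ncard < ∑ s : T3, 2 * (K.bad s).edgeSet.ncard :=
    sum_lt_sum_of_nonempty univ_nonempty (fun s _ => hcon s)
  have h3 : (univ : Finset T3).card = 8 := by decide
  rw [sum_const, h3, h1, smul_eq_mul] at h2
  omega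

theorem Eight.bad_even [Fintype V] {G : SimpleGraph V} (K : Eight G) (s : T3) (v : V) :
    Even ((K.bad s).neighborSet v).ncard := by
  classical
  have h1 : ∀ w, ∃ z : ℤ, K.sg s v w = 2 * z ∧ (ind ((K.bad s).Adj v w) : ℤ) % 2 = z % 2 := by
    intro w
    rcases K.sg_val s v w with h | h | h
    · refine ⟨0, by rw [h]; norm_num, ?_⟩
      rw [ind_neg (fun h' => h'.2 h)]
      norm_num
    · refine ⟨1, by rw [h]; norm_num, ?_⟩
      have h2 : G.Adj v w := by
        by_contra h3
        have h4 : K.sg s v w = 0 := sum_eq_zero (fun c _ => by rw [K.supp c v w h3, mul_zero])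
        rw [h] at h4
        norm_num at h4
      rw [ind_pos ⟨h2, by rw [h]; norm_num⟩]
      norm_num
    · refine ⟨-1, by rw [h]; norm_num, ?_⟩
      have h2 : G.Adj v w := by
        by_contra h3
        have h4 : K.sg s v w = 0 := sum_eq_zero (fun c _ => by rw [K.supp c v w h3, mul_zero])
        rw [h] at h4
        norm_num at h4
      rw [ind_pos ⟨h2, by rw [h]; norm_num⟩]
      norm_num
  choose z hz1 hz2 using h1
  have h5 : ∑ w, z w = 0 := by
    have h6 := K.sg_cons s v
    rw [sum_congr rfl (fun w _ => hz1 w), ← mul_sum] at h6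
    omega
  have h8 : ((∑ w, ind ((K.bad s).Adj v w) : ℕ) : ℤ) % 2 = 0 := by
    push_cast
    rw [sum_int_mod, sum_congr rfl (fun w _ => hz2 w), ← sum_int_mod, h5]
    norm_num
  rw [sum_ind_ncard, Nat.even_iff]
  omega

/-- A cycle double cover with directed cycles such that at least half of the edges are traversed in
both directions; the other edges form an even subgraph. -/
theorem half_oriented [Fintype V] (G : SimpleGraph V) (hG : NoCut G) :
    ∃ (D : SimpleGraph V) (C : List (Σ v : V, G.Walk v v)), D ≤ G ∧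
      (∀ v, Even (D.neighborSet v).ncard) ∧ 2 * D.edgeSet.ncard ≤ G.edgeSet.ncard ∧
      (∀ c ∈ C, c.2.IsCycle) ∧ (∀ u v, G.Adj u v → tot C u v + tot C v u = 2) ∧
      ∀ u v, G.Adj u v → ¬ D.Adj u v → tot C u v = 1 := by
  classical
  obtain ⟨K⟩ := exists_eight G hG
  obtain ⟨s, hs⟩ := K.exists_sign
  -- the directed cycles
  obtain ⟨C, hC1, hC2⟩ := flows_decomp (G := G) (univ : Finset T3).toList
    (fun c u v => ch s c * K.g c u v)
    (by
      intro c u v
      rw [K.anti c u v]
      ring)
    (by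
      intro c u v
      rcases ch_pm s c with h | h <;> rcases K.val c u v with h' | h' | h' <;> rw [h, h'] <;>
        norm_num)
    (by
      intro c u v h
      by_contra hn
      apply h
      rw [K.supp c u v hn, mul_zero])
    (by
      intro c u
      rw [← mul_sum, K.cons c u, mul_zero])
  have hC3 : ∀ u v, tot C u v = ∑ c, ind (ch s c * K.g c u v = 1) := by
    intro u v
    rw [hC2, Finset.sum_map_toList]
  refine ⟨K.bad s, C, fun u v h => h.1, K.bad_even s, hs, hC1, ?_, ?_⟩
  · intro u v huv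
    rw [hC3, hC3, ← sum_add_distrib]
    obtain ⟨a, b, hab, ha, hb, h0⟩ := K.two u v huv
    have h1 : ∀ c, ind (ch s c * K.g c u v = 1) + ind (ch s c * K.g c v u = 1) =
        ind (K.g c u v ≠ 0) := by
      intro c
      rw [K.anti c u v]
      have h2 : ch s c * K.g c u v = 0 ∨ ch s c * K.g c u v = 1 ∨ ch s c * K.g c u v = -1 := by
        rcases ch_pm s c with h | h <;> rcases K.val c u v with h' | h' | h' <;> rw [h, h'] <;>
          norm_num
      rw [mul_neg, ind_both h2]
      apply ind_congr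
      rcases ch_pm s c with h | h <;> rw [h] <;> simp
    rw [sum_congr rfl (fun c _ => h1 c)]
    rw [sum_two _ hab (fun c hca hcb => ind_neg (not_not.2 (h0 c hca hcb))),
      ind_pos (ne_of_pm ha), ind_pos (ne_of_pm hb)]
  · intro u v huv hnD
    rw [hC3]
    obtain ⟨a, b, hab, ha, hb, h0⟩ := K.two u v huv
    have h4 : ch s a * K.g a u v + ch s b * K.g b u v = 0 := by
      rw [← K.sg_two s hab h0]
      by_contra h5
      exact hnD ⟨huv, h5⟩
    rw [sum_two _ hab (fun c hca hcb => ind_neg (by rw [h0 c hca hcb, mul_zero]; norm_num))]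
    exact ind_pm (pm_mul (ch_pm s a) ha) h4

end Pool.Agent.K4H80.OK
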