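import Pool.Agent.TH505.OCDC.Cover
import Pool.Agent.H239R2.Cover.Graph

set_option autoImplicit false

/-!
Digraphs without opposite arcs all of whose net out-degrees are multiples of three: the arcs split
into three sets with equal net out-degrees. Integer flows modulo three.
-/

namespace Pool.Agent.K4H80.OK

open Finset Pool.Agent.TH505.OCDC Pool.Agent.H239R2.Cover

variable {V : Type}

/-- the number of arcs leaving `u` minus the number of arcs entering `u` -/
noncomputable def net [Fintype V] (R : V → V → Prop) (u : V) : ℤ :=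
  ∑ w, (ind (R u w) : ℤ) - ∑ w, (ind (R w u) : ℤ)

theorem net_sum [Fintype V] (R : V → V → Prop) : ∑ u, net R u = 0 := by
  unfold net
  rw [sum_sub_distrib, sum_comm, sub_self]

theorem ind_congr {p q : Prop} (h : p ↔ q) : ind p = ind q := by
  by_cases hp : p
  · rw [ind_pos hp, ind_pos (h.1 hp)]
  · rw [ind_neg hp, ind_neg (fun hq => hp (h.2 hq))]

theorem ind_split {p q r : Prop} (h : p ↔ q ∨ r) (hd : ¬ (q ∧ r)) : ind p = ind q + ind r := by
  by_cases hq : q
  · have hr : ¬ r := fun hr => hd ⟨hq, hr⟩
    rw [ind_pos (h.2 (Or.inl hq)), ind_pos hq, ind_neg hr]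
  · by_cases hr : r
    · rw [ind_pos (h.2 (Or.inr hr)), ind_neg hq, ind_pos hr]
    · rw [ind_neg hq, ind_neg hr, ind_neg (fun hp => (h.1 hp).elim hq hr)]

theorem net_split [Fintype V] {R Q S : V → V → Prop} (h : ∀ u v, R u v ↔ Q u v ∨ S u v)
    (hd : ∀ u v, ¬ (Q u v ∧ S u v)) (u : V) : net R u = net Q u + net S u := by
  unfold net
  have h1 : ∀ a b, (ind (R a b) : ℤ) = ind (Q a b) + ind (S a b) := by
    intro a b
    rw [ind_split (h a b) (hd a b)]
    push_cast
    rfl
  simp only [h1, sum_add_distrib]
  ring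

/-- sums over a set of arcs -/
theorem sum_arcs [Fintype V] [DecidableEq V] {R : V → V → Prop}
    (T : Finset {p : V × V // R p.1 p.2}) (v : V) :
    ∑ e ∈ T, ((if e.1.1 = v then (1 : ℤ) else 0) - (if e.1.2 = v then 1 else 0)) =
      net (fun u w => ∃ h : R u w, (⟨(u, w), h⟩ : {p : V × V // R p.1 p.2}) ∈ T) v := by
  classical
  unfold net
  rw [sum_sub_distrib]
  congr 1
  · have h1 : ∀ e ∈ T, (if e.1.1 = v then (1 : ℤ) else 0) =
        ∑ w, (if e.1 = (v, w) then (1 : ℤ) else 0) := by
      intro e _
      by_cases he : e.1.1 = v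
      · rw [if_pos he, sum_eq_single e.1.2]
        · rw [if_pos (show e.1 = (v, e.1.2) from Prod.ext he rfl)]
        · intro w _ hw
          exact if_neg (fun h => hw (congrArg Prod.snd h).symm)
        · intro h
          exact absurd (mem_univ _) h
      · rw [if_neg he, eq_comm]
        exact sum_eq_zero (fun w _ => if_neg (fun h => he (congrArg Prod.fst h)))
    rw [sum_congr rfl h1, sum_comm]
    refine sum_congr rfl (fun w _ => ?_)
    by_cases hw : ∃ h : R v w, (⟨(v, w), h⟩ : {p : V × V // R p.1 p.2}) ∈ T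
    · rw [ind_pos hw]
      obtain ⟨h, hT⟩ := hw
      rw [sum_eq_single (⟨(v, w), h⟩ : {p : V × V // R p.1 p.2})]
      · simp
      · intro e _ he
        exact if_neg (fun h' => he (Subtype.ext h'))
      · intro h'
        exact absurd hT h'
    · rw [ind_neg hw]
      refine sum_eq_zero (fun e he => if_neg (fun h' => hw ?_))
      have h2 : R v w := by
        have := e.2
        rw [h'] at this
        exact this
      refine ⟨h2, ?_⟩
      have h3 : (⟨(v, w), h2⟩ : {p : V × V // R p.1 p.2}) = e := Subtype.ext h'.symm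
      rw [h3]
      exact he
  · have h1 : ∀ e ∈ T, (if e.1.2 = v then (1 : ℤ) else 0) =
        ∑ w, (if e.1 = (w, v) then (1 : ℤ) else 0) := by
      intro e _
      by_cases he : e.1.2 = v
      · rw [if_pos he, sum_eq_single e.1.1]
        · rw [if_pos (show e.1 = (e.1.1, v) from Prod.ext rfl he)]
        · intro w _ hw
          exact if_neg (fun h => hw (congrArg Prod.fst h).symm)
        · intro h
          exact absurd (mem_univ _) h
      · rw [if_neg he, eq_comm]
        exact sum_eq_zero (fun w _ => if_neg (fun h => he (congrArg Prod.snd h)))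
    rw [sum_congr rfl h1, sum_comm]
    refine sum_congr rfl (fun w _ => ?_)
    by_cases hw : ∃ h : R w v, (⟨(w, v), h⟩ : {p : V × V // R p.1 p.2}) ∈ T
    · rw [ind_pos hw]
      obtain ⟨h, hT⟩ := hw
      rw [sum_eq_single (⟨(w, v), h⟩ : {p : V × V // R p.1 p.2})]
      · simp
      · intro e _ he
        exact if_neg (fun h' => he (Subtype.ext h'))
      · intro h'
        exact absurd hT h'
    · rw [ind_neg hw]
      refine sum_eq_zero (fun e he => if_neg (fun h' => hw ?_))
      have h2 : R w v := by
        have := e.2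
        rw [h'] at this
        exact this
      refine ⟨h2, ?_⟩
      have h3 : (⟨(w, v), h2⟩ : {p : V × V // R p.1 p.2}) = e := Subtype.ext h'.symm
      rw [h3]
      exact he

/-- if the net out-degrees are three times those of `t`, then a set of arcs has the net out-degrees
`t` -/
theorem third [Fintype V] (R : V → V → Prop) (t : V → ℤ) (ht : ∀ u, net R u = 3 * t u) :
    ∃ S : V → V → Prop, (∀ u v, S u v → R u v) ∧ ∀ u, net S u = t u := by
  classical
  rcases isEmpty_or_nonempty V with hV | ⟨⟨r⟩⟩
  · exact ⟨fun _ _ => False, fun _ _ h => h.elim, fun u => (hV.false u).elim⟩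
  let E := {p : V × V // R p.1 p.2}
  let src : E → V := fun e => e.1.1
  let dst : E → V := fun e => e.1.2
  have hnet : ∀ v, ∑ e : E, ((if src e = v then (1 : ℤ) else 0) - (if dst e = v then 1 else 0)) =
      3 * t v := by
    intro v
    have h1 := sum_arcs (R := R) (univ : Finset E) v
    rw [← ht v]
    refine h1.trans ?_
    have h2 : ∀ a b, ind (∃ h : R a b, (⟨(a, b), h⟩ : E) ∈ (univ : Finset E)) = ind (R a b) := by
      intro a b
      exact ind_congr ⟨fun ⟨h, _⟩ => h, fun h => ⟨h, mem_univ _⟩⟩
    unfold net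
    simp only [h2]
  obtain ⟨S, hS⟩ := rounding (inc src dst r) (unimod_inc src dst r) (fun v => t v.1) _
    (fun _ => (1 / 3 : ℝ)) (fun _ => by norm_num) (fun _ => by norm_num) (by
      ext v
      have h1 := congrArg (Int.cast : ℤ → ℝ) (hnet v.1)
      simp only [Finset.sum_apply, Pi.smul_apply, smul_eq_mul, rv, inc]
      push_cast at h1 ⊢
      rw [← mul_sum, h1]
      ring) le_rfl
  refine ⟨fun u w => ∃ h : R u w, (⟨(u, w), h⟩ : E) ∈ S, fun u v h => h.1, ?_⟩
  have h3 : ∀ v, v ≠ r → net (fun u w => ∃ h : R u w, (⟨(u, w), h⟩ : E) ∈ S) v = t v := by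
    intro v hv
    rw [← sum_arcs (R := R) S v]
    have h4 := congrFun hS ⟨v, hv⟩
    simp only [Finset.sum_apply, inc] at h4
    exact h4
  intro v
  by_cases hv : v = r
  · rw [hv]
    have h5 := net_sum (fun u w => ∃ h : R u w, (⟨(u, w), h⟩ : E) ∈ S)
    have h6 := net_sum R
    rw [← add_sum_erase _ _ (mem_univ r)] at h5 h6
    have h7 : ∑ u ∈ univ.erase r, net (fun u w => ∃ h : R u w, (⟨(u, w), h⟩ : E) ∈ S) u =
        ∑ u ∈ univ.erase r, t u :=
      sum_congr rfl (fun u hu => h3 u (ne_of_mem_erase hu))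
    have h8 : ∑ u ∈ univ.erase r, net R u = 3 * ∑ u ∈ univ.erase r, t u := by
      rw [mul_sum]
      exact sum_congr rfl (fun u _ => ht u)
    rw [h7] at h5
    rw [h8, ht r] at h6
    linarith
  · exact h3 v hv

/-- if the net out-degrees are twice those of `t`, then a set of arcs has the net out-degrees `t` -/
theorem half [Fintype V] (R : V → V → Prop) (hopp : ∀ u v, R u v → ¬ R v u) (t : V → ℤ)
    (ht : ∀ u, net R u = 2 * t u) :
    ∃ S : V → V → Prop, (∀ u v, S u v → R u v) ∧ ∀ u, net S u = t u := by
  classical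
  obtain ⟨g, hg1, hg2, hg3, hg4⟩ := orient (⊤ : SimpleGraph V) _ (fun u v => R u v ∨ R v u) rfl
    (by
      intro u v h
      rw [SimpleGraph.top_adj]
      rintro rfl
      rcases h with h | h
      · exact hopp _ _ h h
      · exact hopp _ _ h h)
    (fun u v h => h.symm)
    (by
      intro v
      have h1 : ∑ w, ind (R v w ∨ R w v) = ∑ w, ind (R v w) + ∑ w, ind (R w v) := by
        rw [← sum_add_distrib]
        exact sum_congr rfl (fun w _ => ind_split Iff.rfl (fun h => hopp _ _ h.1 h.2))
      rw [h1]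
      have h2 := ht v
      unfold net at h2
      have h3 : ((∑ w, ind (R v w) : ℕ) : ℤ) - ((∑ w, ind (R w v) : ℕ) : ℤ) = 2 * t v := by
        push_cast
        exact h2
      rw [Nat.even_iff]
      omega)
  refine ⟨fun u v => R u v ∧ g u v = 1, fun u v h => h.1, ?_⟩
  intro u
  have h1 := net_split (R := R) (Q := fun u v => R u v ∧ g u v = 1)
    (S := fun u v => R u v ∧ g u v = -1) (by
      intro a b
      constructor
      · intro h
        rcases hg2 a b (Or.inl h) with h' | h'
        · exact Or.inl ⟨h, h'⟩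
        · exact Or.inr ⟨h, h'⟩
      · rintro (h | h)
        · exact h.1
        · exact h.1) (by
      rintro a b ⟨⟨_, h⟩, _, h'⟩
      rw [h] at h'
      norm_num at h') u
  have h2 : ∀ w, g u w = (ind (R u w ∧ g u w = 1) : ℤ) - ind (R u w ∧ g u w = -1) -
      ind (R w u ∧ g w u = 1) + ind (R w u ∧ g w u = -1) := by
    intro w
    by_cases h3 : R u w
    · have h4 : ¬ R w u := hopp _ _ h3
      rw [ind_neg (p := R w u ∧ g w u = 1) (fun h => h4 h.1),
        ind_neg (p := R w u ∧ g w u = -1) (fun h => h4 h.1)]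
      rcases hg2 u w (Or.inl h3) with h | h
      · rw [ind_pos ⟨h3, h⟩, ind_neg (fun h' => by have := h'.2; rw [h] at this; norm_num at this), h]
        norm_num
      · rw [ind_neg (fun h' => by have := h'.2; rw [h] at this; norm_num at this), ind_pos ⟨h3, h⟩, h]
        norm_num
    · rw [ind_neg (p := R u w ∧ g u w = 1) (fun h => h3 h.1),
        ind_neg (p := R u w ∧ g u w = -1) (fun h => h3 h.1)]
      by_cases h4 : R w u
      · have h5 := hg1 w u
        rcases hg2 w u (Or.inl h4) with h | h
        · rw [ind_pos ⟨h4, h⟩, ind_neg (fun h' => by have := h'.2; rw [h] at this; norm_num at this),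
            h5, h]
          norm_num
        · rw [ind_neg (fun h' => by have := h'.2; rw [h] at this; norm_num at this), ind_pos ⟨h4, h⟩,
            h5, h]
          norm_num
      · rw [ind_neg (p := R w u ∧ g w u = 1) (fun h => h4 h.1),
          ind_neg (p := R w u ∧ g w u = -1) (fun h => h4 h.1), hg3 u w (fun h => h.elim h3 h4)]
        norm_num
  have h5 := hg4 u
  rw [sum_congr rfl (fun w _ => h2 w), sum_add_distrib, sum_sub_distrib, sum_sub_distrib] at h5
  have h6 := ht u
  unfold net at h1 h6 ⊢
  linarith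

/-- three classes of arcs with equal net out-degrees -/
theorem split3 [Fintype V] (R : V → V → Prop) (hopp : ∀ u v, R u v → ¬ R v u) (t : V → ℤ)
    (ht : ∀ u, net R u = 3 * t u) :
    ∃ G : Fin 3 → V → V → Prop, (∀ k u v, G k u v → R u v) ∧
      (∀ u v, R u v → ∃ k, G k u v ∧ ∀ j, j ≠ k → ¬ G j u v) ∧ ∀ k u, net (G k) u = t u := by
  obtain ⟨A, hA1, hA2⟩ := third R t ht
  have h1 : ∀ u, net (fun u v => R u v ∧ ¬ A u v) u = 2 * t u := by
    intro u
    have := net_split (R := R) (Q := A) (S := fun u v => R u v ∧ ¬ A u v) (by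
      intro a b
      by_cases h : A a b
      · exact ⟨fun _ => Or.inl h, fun _ => hA1 a b h⟩
      · exact ⟨fun h' => Or.inr ⟨h', h⟩, fun h' => h'.elim (fun h'' => absurd h'' h) (fun h'' => h''.1)⟩)
      (fun a b h => h.2.2 h.1) u
    rw [ht u, hA2 u] at this
    linarith
  obtain ⟨B, hB1, hB2⟩ := half (fun u v => R u v ∧ ¬ A u v) (fun u v h h' => hopp _ _ h.1 h'.1) t h1
  have h2 : ∀ u, net (fun u v => R u v ∧ ¬ A u v ∧ ¬ B u v) u = t u := by
    intro u
    have := net_split (R := fun u v => R u v ∧ ¬ A u v) (Q := B)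
      (S := fun u v => R u v ∧ ¬ A u v ∧ ¬ B u v) (by
      intro a b
      by_cases h : B a b
      · exact ⟨fun _ => Or.inl h, fun _ => hB1 a b h⟩
      · exact ⟨fun h' => Or.inr ⟨h'.1, h'.2, h⟩,
          fun h' => h'.elim (fun h'' => absurd h'' h) (fun h'' => ⟨h''.1, h''.2.1⟩)⟩)
      (fun a b h => h.2.2.2 h.1) u
    rw [h1 u, hB2 u] at this
    linarith
  refine ⟨fun k u v => if k = 0 then A u v else if k = 1 then B u v else
    R u v ∧ ¬ A u v ∧ ¬ B u v, ?_, ?_, ?_⟩
  · intro k u v h
    fin_cases k
    · exact hA1 u v (by simpa using h)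
    · exact (hB1 u v (by simpa using h)).1
    · exact (show R u v ∧ ¬ A u v ∧ ¬ B u v by simpa using h).1
  · intro u v h
    by_cases hA : A u v
    · refine ⟨0, by simpa using hA, ?_⟩
      intro j hj
      fin_cases j
      · exact absurd rfl hj
      · simp only [Fin.mk_one, Fin.isValue, one_ne_zero, if_false, if_true]
        exact fun h' => (hB1 u v h').2 hA
      · simp [hA]
    · by_cases hB : B u v
      · refine ⟨1, by simpa using hB, ?_⟩
        intro j hj
        fin_cases j
        · simpa using hA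
        · exact absurd rfl hj
        · simp [hB]
      · refine ⟨2, by simpa using ⟨h, hA, hB⟩, ?_⟩
        intro j hj
        fin_cases j
        · simpa using hA
        · simpa using hB
        · exact absurd rfl hj
  · intro k u
    fin_cases k
    · simpa using hA2 u
    · simpa using hB2 u
    · simpa using h2 u

end Pool.Agent.K4H80.OK
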