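import Pool.Agent.K4H80.OK.Split

set_option autoImplicit false

/-!
Every arc of a bridgeless graph exactly three times.
-/

namespace Pool.Agent.K4H80.OK

open Finset Pool.Agent.TH505.OCDC
open Pool.Agent.H126R2.CDC (T3)

variable {V : Type}

theorem ind_le_one (p : Prop) : ind p ≤ 1 := by
  by_cases h : p
  · rw [ind_pos h]
  · rw [ind_neg h]; exact Nat.zero_le _

/-- the arcs of residue one modulo three -/
def Res (h : V → V → ℤ) (u v : V) : Prop := h u v % 3 = 1

theorem res_opp {h : V → V → ℤ} (hanti : ∀ u v, h v u = - h u v) (u v : V) (h1 : Res h u v) :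
    ¬ Res h v u := by
  unfold Res at *
  have := hanti u v
  omega

theorem res_cong {h : V → V → ℤ} (hanti : ∀ u v, h v u = - h u v) (u v : V) :
    (3 : ℤ) ∣ h u v - ((ind (Res h u v) : ℤ) - ind (Res h v u)) := by
  have h0 := hanti u v
  by_cases h1 : Res h u v
  · rw [ind_pos h1, ind_neg (res_opp hanti u v h1)]
    unfold Res at h1
    push_cast
    omega
  · by_cases h2 : Res h v u
    · rw [ind_neg h1, ind_pos h2]
      unfold Res at h2
      push_cast
      omega
    · rw [ind_neg h1, ind_neg h2]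
      unfold Res at h1 h2
      push_cast
      omega

theorem net_res [Fintype V] {h : V → V → ℤ} (hanti : ∀ u v, h v u = - h u v)
    (hcons : ∀ u, ∑ w, h u w = 0) : ∃ t : V → ℤ, ∀ u, net (Res h) u = 3 * t u := by
  have h1 : ∀ u, (3 : ℤ) ∣ net (Res h) u := by
    intro u
    have h2 : (3 : ℤ) ∣ ∑ w, (h u w - ((ind (Res h u w) : ℤ) - ind (Res h w u))) :=
      dvd_sum (fun w _ => res_cong hanti u w)
    rw [sum_sub_distrib, hcons u, sum_sub_distrib, zero_sub] at h2
    exact (dvd_neg.1 h2)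
  choose t ht using h1
  exact ⟨t, ht⟩

/-- Three flows with values `0, 1, -1`: on the arcs on which `h` is a multiple of three they vanish,
on the other arcs one of them is `1` and one is `-1`. -/
theorem three_flows [Fintype V] (h : V → V → ℤ) (hanti : ∀ u v, h v u = - h u v)
    (hcons : ∀ u, ∑ w, h u w = 0) :
    ∃ f : Fin 3 → V → V → ℤ, (∀ k u v, f k v u = - f k u v) ∧ (∀ k u, ∑ w, f k u w = 0) ∧
      (∀ k u v, f k u v = 0 ∨ f k u v = 1 ∨ f k u v = -1) ∧
      (∀ k u v, h u v = 0 → f k u v = 0) ∧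
      ∀ u v, ∑ k, ind (f k u v = 1) = ind (¬ (3 : ℤ) ∣ h u v) := by
  obtain ⟨t, ht⟩ := net_res hanti hcons
  obtain ⟨G, hG1, hG2, hG3⟩ := split3 (Res h) (res_opp hanti) t ht
  let d : Fin 3 → V → V → ℤ := fun k u v => (ind (G k u v) : ℤ) - ind (G k v u)
  have hd : ∀ k u, ∑ w, d k u w = t u := by
    intro k u
    rw [← hG3 k u]
    simp only [d, net, sum_sub_distrib]
  -- values
  have hval : ∀ u v, (∃ i j : Fin 3, i ≠ j ∧ d (i + 1) u v - d (i + 2) u v = 1 ∧
      d (j + 1) u v - d (j + 2) u v = -1 ∧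
      ∀ k, k ≠ i → k ≠ j → d (k + 1) u v - d (k + 2) u v = 0) ∨ ((3 : ℤ) ∣ h u v ∧
      ∀ k, d k u v = 0) := by
    intro u v
    by_cases h1 : Res h u v
    · left
      obtain ⟨k, hk, hk'⟩ := hG2 u v h1
      have h2 : ∀ j, ¬ G j v u := fun j hj => res_opp hanti u v h1 (hG1 j v u hj)
      have h3 : ∀ j, d j u v = if j = k then 1 else 0 := by
        intro j
        simp only [d]
        rw [ind_neg (h2 j)]
        by_cases hj : j = k
        · rw [if_pos hj, hj, ind_pos hk]; norm_num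
        · rw [if_neg hj, ind_neg (hk' j hj)]; norm_num
      refine ⟨k + 2, k + 1, ?_, ?_, ?_, ?_⟩
      · exact (by decide : ∀ k : Fin 3, k + 2 ≠ k + 1) k
      · rw [h3, h3]; fin_cases k <;> simp
      · rw [h3, h3]; fin_cases k <;> simp
      · intro j hj1 hj2
        rw [h3, h3]
        fin_cases k <;> fin_cases j <;> simp at hj1 hj2 ⊢
    · by_cases h2 : Res h v u
      · left
        obtain ⟨k, hk, hk'⟩ := hG2 v u h2
        have h3 : ∀ j, ¬ G j u v := fun j hj => h1 (hG1 j u v hj)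
        have h4 : ∀ j, d j u v = if j = k then -1 else 0 := by
          intro j
          simp only [d]
          rw [ind_neg (h3 j)]
          by_cases hj : j = k
          · rw [if_pos hj, hj, ind_pos hk]; norm_num
          · rw [if_neg hj, ind_neg (hk' j hj)]; norm_num
        refine ⟨k + 1, k + 2, ?_, ?_, ?_, ?_⟩
        · exact (by decide : ∀ k : Fin 3, k + 1 ≠ k + 2) k
        · rw [h4, h4]; fin_cases k <;> simp
        · rw [h4, h4]; fin_cases k <;> simp
        · intro j hj1 hj2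
          rw [h4, h4]
          fin_cases k <;> fin_cases j <;> simp at hj1 hj2 ⊢
      · right
        constructor
        · have h5 := hanti u v
          unfold Res at h1 h2
          omega
        · intro k
          simp only [d]
          rw [ind_neg (fun hk => h1 (hG1 k u v hk)), ind_neg (fun hk => h2 (hG1 k v u hk))]
          norm_num
  refine ⟨fun k u v => d (k + 1) u v - d (k + 2) u v, ?_, ?_, ?_, ?_, ?_⟩
  · intro k u v
    simp only [d]
    ring
  · intro k u
    rw [sum_sub_distrib, hd, hd, sub_self]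
  · intro k u v
    rcases hval u v with ⟨i, j, _, hi, hj, hk⟩ | ⟨_, h0⟩
    · by_cases h1 : k = i
      · right; left; show d (k + 1) u v - d (k + 2) u v = 1
        rw [h1]; exact hi
      · by_cases h2 : k = j
        · right; right; show d (k + 1) u v - d (k + 2) u v = -1
          rw [h2]; exact hj
        · left; exact hk k h1 h2
    · left
      show d (k + 1) u v - d (k + 2) u v = 0
      rw [h0, h0, sub_self]
  · intro k u v h0
    show d (k + 1) u v - d (k + 2) u v = 0
    have h1 : ¬ Res h u v := by unfold Res; rw [h0]; norm_num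
    have h2 : ¬ Res h v u := by unfold Res; rw [hanti u v, h0]; norm_num
    simp only [d]
    rw [ind_neg (fun hk => h1 (hG1 _ u v hk)), ind_neg (fun hk => h2 (hG1 _ v u hk)),
      ind_neg (fun hk => h1 (hG1 _ u v hk)), ind_neg (fun hk => h2 (hG1 _ v u hk))]
    norm_num
  · intro u v
    rcases hval u v with ⟨i, j, hij, hi, hj, hk⟩ | ⟨hdvd, h0⟩
    · have hnd : ¬ (3 : ℤ) ∣ h u v := by
        intro hdvd
        have h1 : ¬ Res h u v := by unfold Res; omega
        have h2 : ¬ Res h v u := by have := hanti u v; unfold Res; omega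
        have h3 : ∀ k, d k u v = 0 := by
          intro k
          simp only [d]
          rw [ind_neg (fun hk => h1 (hG1 k u v hk)), ind_neg (fun hk => h2 (hG1 k v u hk))]
          norm_num
        rw [h3, h3] at hi
        norm_num at hi
      show ∑ k, ind (d (k + 1) u v - d (k + 2) u v = 1) = _
      rw [ind_pos hnd, sum_eq_single i]
      · exact ind_pos hi
      · intro k _ hki
        by_cases hkj : k = j
        · rw [hkj, hj]
          exact ind_neg (by norm_num)
        · rw [hk k hki hkj]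
          exact ind_neg (by norm_num)
      · intro h'
        exact absurd (mem_univ _) h'
    · show ∑ k, ind (d (k + 1) u v - d (k + 2) u v = 1) = _
      rw [ind_neg (not_not.2 hdvd)]
      apply sum_eq_zero
      intro k _
      rw [h0, h0]
      exact ind_neg (by norm_num)

/-- bits -/
def bit (i : Fin 3) (c : T3) : Bool := if i = 0 then c.1 else if i = 1 then c.2.1 else c.2.2

theorem bit_ne {a b : T3} (h : a ≠ b) : ∃ i, bit i a ≠ bit i b := by
  revert a b; decide

/-- three even subgraphs which cover the graph, with integer flows -/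
theorem exists_bits [Fintype V] (G : SimpleGraph V) (hG : NoCut G) :
    ∃ x : Fin 3 → V → V → ℤ, (∀ i u v, x i v u = - x i u v) ∧ (∀ i u, ∑ w, x i u w = 0) ∧
      (∀ i u v, x i u v = 0 ∨ x i u v = 1 ∨ x i u v = -1) ∧
      (∀ i u v, ¬ G.Adj u v → x i u v = 0) ∧ ∀ u v, G.Adj u v → ∃ i, x i u v ≠ 0 := by
  classical
  obtain ⟨T, hT1, hT2, hT3, hT4⟩ := exists_T G hG
  have hor : ∀ i : Fin 3, ∃ g : V → V → ℤ, (∀ u v, g v u = - g u v) ∧
      (∀ u v, Odd ((T u v).filter (fun c => bit i c = true)).card → g u v = 1 ∨ g u v = -1) ∧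
      (∀ u v, ¬ Odd ((T u v).filter (fun c => bit i c = true)).card → g u v = 0) ∧
      ∀ u, ∑ w, g u w = 0 := by
    intro i
    refine orient G _ (fun u v => Odd ((T u v).filter (fun c => bit i c = true)).card) rfl ?_ ?_ ?_
    · intro u v h
      by_contra h'
      rw [hT2 u v h'] at h
      simp at h
    · intro u v h
      rw [hT1 v u]; exact h
    · intro v
      have h1 : ∀ n : ℕ, (ind (Odd n) : ZMod 2) = (n : ZMod 2) := by
        intro n
        by_cases hn : Odd n
        · rw [ind_pos hn, (ZMod.natCast_eq_one_iff_odd).2 hn]; simp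
        · rw [ind_neg hn, (ZMod.natCast_eq_zero_iff_even).2 (Nat.not_odd_iff_even.1 hn)]; simp
      rw [← ZMod.natCast_eq_zero_iff_even, Nat.cast_sum, sum_congr rfl (fun w _ => h1 _),
        ← Nat.cast_sum]
      rw [ZMod.natCast_eq_zero_iff_even]
      have h2 : ∀ w, ((T v w).filter (fun c => bit i c = true)).card =
          ∑ c ∈ univ.filter (fun c => bit i c = true), ind (c ∈ T v w) := by
        intro w
        have h3 : ∀ c ∈ univ.filter (fun c => bit i c = true), ind (c ∈ T v w) =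
            if c ∈ T v w then 1 else 0 := by
          intro c _
          by_cases hc : c ∈ T v w
          · rw [ind_pos hc, if_pos hc]
          · rw [ind_neg hc, if_neg hc]
        rw [sum_congr rfl h3, ← card_filter]
        congr 1
        ext c
        simp only [mem_filter, mem_univ, true_and]
        tauto
      rw [sum_congr rfl (fun w _ => h2 w), sum_comm]
      exact even_sum _ (fun c _ => hT4 c v)
  choose x hx1 hx2 hx3 hx4 using hor
  refine ⟨x, hx1, hx4, ?_, ?_, ?_⟩
  · intro i u v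
    by_cases h : Odd ((T u v).filter (fun c => bit i c = true)).card
    · exact Or.inr (hx2 i u v h)
    · exact Or.inl (hx3 i u v h)
  · intro i u v h
    apply hx3
    rw [hT2 u v h]
    simp
  · intro u v h
    obtain ⟨a, b, hab, hTab⟩ := card_eq_two.1 (hT3 u v h)
    obtain ⟨i, hi⟩ := bit_ne hab
    refine ⟨i, ?_⟩
    have hodd : Odd ((T u v).filter (fun c => bit i c = true)).card := by
      rw [hTab]
      by_cases ha : bit i a = true
      · have hb : bit i b ≠ true := fun hb => hi (ha.trans hb.symm)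
        rw [filter_insert, if_pos ha, filter_singleton, if_neg hb, insert_empty_eq, card_singleton]
        exact odd_one
      · have hb : bit i b = true := by
          by_contra hb
          rw [Bool.not_eq_true] at ha hb
          exact hi (ha.trans hb.symm)
        rw [filter_insert, if_neg ha, filter_singleton, if_pos hb, card_singleton]
        exact odd_one
    rcases hx2 i u v hodd with h' | h' <;> rw [h'] <;> norm_num

/-- two integer flows such that on no edge both are multiples of three -/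
theorem exists_nine [Fintype V] (G : SimpleGraph V) (hG : NoCut G) :
    ∃ φ ψ : V → V → ℤ, (∀ u v, φ v u = - φ u v) ∧ (∀ u, ∑ w, φ u w = 0) ∧
      (∀ u v, ψ v u = - ψ u v) ∧ (∀ u, ∑ w, ψ u w = 0) ∧
      (∀ u v, ¬ G.Adj u v → φ u v = 0 ∧ ψ u v = 0) ∧
      ∀ u v, G.Adj u v → ¬ ((3 : ℤ) ∣ φ u v ∧ (3 : ℤ) ∣ ψ u v) := by
  obtain ⟨x, x1, x2, x3, x4, x5⟩ := exists_bits G hG
  let φ : V → V → ℤ := fun u v => x 0 u v + 2 * x 1 u v + 4 * x 2 u v
  have a1 : ∀ u v, φ v u = - φ u v := by
    intro u v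
    simp only [φ]
    rw [x1 0 u v, x1 1 u v, x1 2 u v]
    ring
  have a2 : ∀ u, ∑ w, φ u w = 0 := by
    intro u
    simp only [φ, sum_add_distrib, ← mul_sum]
    rw [x2 0 u, x2 1 u, x2 2 u]
    norm_num
  have a3 : ∀ u v, G.Adj u v → φ u v ≠ 0 ∧ φ u v ≤ 7 ∧ -7 ≤ φ u v := by
    intro u v h
    have b0 := x3 0 u v
    have b1 := x3 1 u v
    have b2 := x3 2 u v
    obtain ⟨i, hi⟩ := x5 u v h
    have b3 : x 0 u v ≠ 0 ∨ x 1 u v ≠ 0 ∨ x 2 u v ≠ 0 := by
      fin_cases i
      · exact Or.inl hi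
      · exact Or.inr (Or.inl hi)
      · exact Or.inr (Or.inr hi)
    simp only [φ]
    omega
  have a4 : ∀ u v, ¬ G.Adj u v → φ u v = 0 := by
    intro u v h
    simp only [φ]
    rw [x4 0 u v h, x4 1 u v h, x4 2 u v h]
    norm_num
  obtain ⟨t, ht⟩ := net_res a1 a2
  obtain ⟨A, hA1, hA2⟩ := third (Res φ) t ht
  let χ : V → V → ℤ := fun u v => ((ind (Res φ u v) : ℤ) - ind (Res φ v u)) -
    3 * ((ind (A u v) : ℤ) - ind (A v u))
  have c1 : ∀ u, ∑ w, χ u w = 0 := by
    intro u
    have h1 := ht u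
    have h2 := hA2 u
    unfold net at h1 h2
    simp only [χ, sum_sub_distrib, ← mul_sum]
    linarith
  have c2 : ∀ u v, (3 : ℤ) ∣ φ u v - χ u v := by
    intro u v
    have h1 := res_cong a1 u v
    simp only [χ]
    omega
  have c3 : ∀ u v, χ v u = - χ u v := by
    intro u v
    simp only [χ]
    ring
  choose ψ hψ using c2
  refine ⟨φ, ψ, a1, a2, ?_, ?_, ?_, ?_⟩
  · intro u v
    have h1 := hψ u v
    have h2 := hψ v u
    rw [a1 u v, c3 u v] at h2
    omega
  · intro u
    have h1 : ∑ w, (φ u w - χ u w) = 3 * ∑ w, ψ u w := by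
      rw [mul_sum]
      exact sum_congr rfl (fun w _ => hψ u w)
    rw [sum_sub_distrib, a2, c1] at h1
    omega
  · intro u v h
    have h1 := a4 u v h
    have h2 : φ v u = 0 := a4 v u (fun h' => h h'.symm)
    refine ⟨h1, ?_⟩
    have h3 : ¬ Res φ u v := by unfold Res; rw [h1]; norm_num
    have h4 : ¬ Res φ v u := by unfold Res; rw [h2]; norm_num
    have h5 := hψ u v
    simp only [χ] at h5
    rw [h1, ind_neg h3, ind_neg h4, ind_neg (fun h' => h3 (hA1 u v h')),
      ind_neg (fun h' => h4 (hA1 v u h'))] at h5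
    push_cast at h5
    omega
  · rintro u v h ⟨h1, h2⟩
    have h3 : ¬ Res φ u v := by unfold Res; omega
    have h4 : ¬ Res φ v u := by have := a1 u v; unfold Res; omega
    have h5 := hψ u v
    simp only [χ] at h5
    rw [ind_neg h3, ind_neg h4, ind_neg (fun h' => h3 (hA1 u v h')),
      ind_neg (fun h' => h4 (hA1 v u h'))] at h5
    push_cast at h5
    have h6 := a3 u v h
    omega

/-- every arc exactly three times -/
theorem kfold_three [Fintype V] (G : SimpleGraph V) (hG : NoCut G) : KFold G 3 := by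
  obtain ⟨φ, ψ, p1, p2, q1, q2, hs, hne⟩ := exists_nine G hG
  let h : Fin 4 → V → V → ℤ := fun j u v =>
    if j = 0 then φ u v else if j = 1 then ψ u v else if j = 2 then φ u v + ψ u v
    else φ u v - ψ u v
  have h1 : ∀ j u v, h j v u = - h j u v := by
    intro j u v
    simp only [h]
    rw [p1 u v, q1 u v]
    split_ifs <;> ring
  have h2 : ∀ j u, ∑ w, h j u w = 0 := by
    intro j u
    simp only [h]
    split_ifs
    · exact p2 u
    · exact q2 u
    · rw [sum_add_distrib, p2, q2, add_zero]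
    · rw [sum_sub_distrib, p2, q2, sub_zero]
  have h3 : ∀ j u v, ¬ G.Adj u v → h j u v = 0 := by
    intro j u v huv
    obtain ⟨e1, e2⟩ := hs u v huv
    simp only [h]
    rw [e1, e2]
    simp
  choose f f1 f2 f3 f4 f5 using fun j => three_flows (h j) (h1 j) (h2 j)
  obtain ⟨C, hC1, hC2⟩ := flows_decomp (G := G) (univ : Finset (Fin 4 × Fin 3)).toList
    (fun i => f i.1 i.2) (fun i => f1 i.1 i.2) (fun i => f3 i.1 i.2)
    (by
      intro i u v hne'
      by_contra huv
      exact hne' (f4 i.1 i.2 u v (h3 i.1 u v huv)))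
    (fun i => f2 i.1 i.2)
  refine ⟨C, hC1, fun u v huv => ?_⟩
  rw [hC2, Finset.sum_map_toList, Fintype.sum_prod_type]
  rw [sum_congr rfl (fun j _ => f5 j u v)]
  have h4 := hne u v huv
  rw [Fin.sum_univ_four]
  have e0 : h 0 u v = φ u v := rfl
  have e1 : h 1 u v = ψ u v := rfl
  have e2 : h 2 u v = φ u v + ψ u v := rfl
  have e3 : h 3 u v = φ u v - ψ u v := rfl
  rw [e0, e1, e2, e3]
  have key : (¬ (3 : ℤ) ∣ φ u v ∧ ¬ (3 : ℤ) ∣ ψ u v ∧ ((¬ (3 : ℤ) ∣ φ u v + ψ u v ∧
      (3 : ℤ) ∣ φ u v - ψ u v) ∨ ((3 : ℤ) ∣ φ u v + ψ u v ∧ ¬ (3 : ℤ) ∣ φ u v - ψ u v))) ∨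
      ((3 : ℤ) ∣ φ u v ∧ ¬ (3 : ℤ) ∣ ψ u v ∧ ¬ (3 : ℤ) ∣ φ u v + ψ u v ∧
        ¬ (3 : ℤ) ∣ φ u v - ψ u v) ∨
      (¬ (3 : ℤ) ∣ φ u v ∧ (3 : ℤ) ∣ ψ u v ∧ ¬ (3 : ℤ) ∣ φ u v + ψ u v ∧
        ¬ (3 : ℤ) ∣ φ u v - ψ u v) := by
    generalize φ u v = a at h4 ⊢
    generalize ψ u v = b at h4 ⊢
    have m1 : a % 3 = 0 ∨ a % 3 = 1 ∨ a % 3 = 2 := by omega
    have m2 : b % 3 = 0 ∨ b % 3 = 1 ∨ b % 3 = 2 := by omega
    rcases m1 with m1 | m1 | m1 <;> rcases m2 with m2 | m2 | m2 <;> omega
  rcases key with ⟨k1, k2, ⟨k3, k4⟩ | ⟨k3, k4⟩⟩ | ⟨k1, k2, k3, k4⟩ | ⟨k1, k2, k3, k4⟩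
  · rw [ind_pos k1, ind_pos k2, ind_pos k3, ind_neg (not_not.2 k4)]
  · rw [ind_pos k1, ind_pos k2, ind_neg (not_not.2 k3), ind_pos k4]
  · rw [ind_neg (not_not.2 k1), ind_pos k2, ind_pos k3, ind_pos k4]
  · rw [ind_pos k1, ind_neg (not_not.2 k2), ind_pos k3, ind_pos k4]

end Pool.Agent.K4H80.OK
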